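import Pool.Agent.MVS.Stmts

/-!
# ZRT: metrics on `S^4` with `|K| ≤ 1` and one isometry of small rotation angle (MP_33f2b9_gt)

THEOREM Z (helper35).  Every smooth metric on `S^4` with `|K| ≤ 1` which has an isometry with two
fixed points at which all tangent vectors are rotated by angles in `(0, 2/5]` has volume
`≥ 8π²/3`.

Part 1: official definitions (metrics are the `Form 4` of `Pool/Agent/Helper36_RF/Cl.lean`, `vol`,
`AbsSecLeOne`, `circ` are those of `Pool/Agent/MVS/Defs.lean`).  Part 2: internal definitions.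
Everything internal takes place in the complete five-dimensional Riemannian manifold
`(Om (Fin 5), G)`, `Om = ℝ^5 \ {0}`, `G = (dr/r)² + g` the cylinder metric (`IsCyl`).
-/

noncomputable section

open scoped ContDiff Topology RealInnerProductSpace
open Set

namespace Pool.Agent.MinVolSphere

open Pool.Agent.SecondKind

/-- `φ` is a smooth map `S^4 → S^4` (given as a map of `ℝ^5 \ {0}`) which preserves the metric `g` -/
structure IsIso (g : Form 4) (φ : (Fin 5 → ℝ) → Fin 5 → ℝ) : Prop where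
  smooth : ContDiffOn ℝ ∞ φ {x | x ≠ 0}
  maps : ∀ x, OnSphere x → OnSphere (φ x)
  pres : ∀ x, OnSphere x → ∀ v w, Tangent x v → Tangent x w →
    g (φ x) (fderiv ℝ φ x v) (fderiv ℝ φ x w) = g x v w

/-- `p` is a fixed point of `φ` at which every nonzero tangent vector `v` is rotated by an angle
in `(0, θ]`: `g(v, dφ v) ≥ cos θ g(v,v)` and `dφ v ≠ v` -/
def RotFix (g : Form 4) (φ : (Fin 5 → ℝ) → Fin 5 → ℝ) (θ : ℝ) (p : Fin 5 → ℝ) : Prop :=
  OnSphere p ∧ φ p = p ∧ ∀ v, Tangent p v → v ≠ 0 →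
    fderiv ℝ φ p v ≠ v ∧ Real.cos θ * g p v v ≤ g p v (fderiv ℝ φ p v)

/-- `g` is invariant under the single rotation by the angle `α` in the `(x_0,x_1)`-plane and by the
angle `β` in the `(x_2,x_3)`-plane -/
def RotInvariant (α β : ℝ) (g : Form 4) : Prop :=
  ∀ x v w, Tangent x v → Tangent x w →
    g (circ α β 1 x) (circ α β 1 v) (circ α β 1 w) = g x v w

end Pool.Agent.MinVolSphere

namespace Pool.Agent.ZRT

open Pool.Agent.RF Pool.Agent.MVS

/-- sectional curvature at least `-1` -/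
def SecGe {ι : Type} [Fintype ι] [DecidableEq ι] (G : E ι → Bil (E ι)) : Prop :=
  ∀ x ∈ Om ι, ∀ v w, -(G x v v * G x w w - G x v w ^ 2) ≤ G x (riem G x v w w) v

/-- Standing hypotheses: cylinder metric on `ℝ^5 \ {0}` with `|K| ≤ 1` and its exponential map. -/
structure Geo (G : E5 → Bil E5) (ex : E5 × E5 → E5) : Prop where
  cyl : IsCyl G
  sec : SecLe G
  secge : SecGe G
  exp : IsExp G ex

/-- the norm `|v|` of a tangent vector `v` at `x` -/
def nm (G : E5 → Bil E5) (x v : E5) : ℝ := Real.sqrt (G x v v)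

/-- derivative of the exponential map `exp_m` at `v` in the direction `w` -/
def dE (ex : E5 × E5 → E5) (m v w : E5) : E5 := fderiv ℝ (fun u : E5 => ex (m, u)) v w

/-- the open ball of radius `r` in the tangent space at `m` -/
def ball (G : E5 → Bil E5) (m : E5) (r : ℝ) : Set E5 := {v | nm G m v < r}

/-- The Jacobi field `J(t) = ∂_s exp_m (t (v + s w))` along the geodesic `t ↦ exp_m (t v)`. -/
def Jf (ex : E5 × E5 → E5) (m v w : E5) (t : ℝ) : E5 := dE ex m (t • v) (t • w)

/-- the velocity of the geodesic `t ↦ exp_m (t v)` -/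
def Tf (ex : E5 × E5 → E5) (m v : E5) (t : ℝ) : E5 := dE ex m (t • v) v

/-- the covariant derivative of the Jacobi field -/
def DJf (G : E5 → Bil E5) (ex : E5 × E5 → E5) (m v w : E5) (t : ℝ) : E5 :=
  deriv (Jf ex m v w) t + chris G (ex (m, t • v)) (Tf ex m v t) (Jf ex m v w t)

/-- `f` is a smooth self-map of `ℝ^5 \ {0}` which preserves the metric `G`, homogeneous of degree
one and norm preserving (the extension of an isometry of the slice). -/
structure IsIsoC (G : E5 → Bil E5) (f : E5 → E5) : Prop where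
  smooth : ContDiffOn ℝ ∞ f (Om (Fin 5))
  norm : ∀ x, ‖f x‖ = ‖x‖
  hom : ∀ c : ℝ, 0 < c → ∀ x ∈ Om (Fin 5), f (c • x) = c • f x
  pres : ∀ x ∈ Om (Fin 5), ∀ v w, G (f x) (fderiv ℝ f x v) (fderiv ℝ f x w) = G x v w

/-- `p` is a fixed point of `f`, `|p| = 1`, at which nonzero tangential vectors are rotated by an
angle in `(0, θ]` -/
def RotFixC (G : E5 → Bil E5) (f : E5 → E5) (θ : ℝ) (p : E5) : Prop :=
  ‖p‖ = 1 ∧ f p = p ∧ ∀ v, ⟪p, v⟫ = (0 : ℝ) → v ≠ 0 →
    fderiv ℝ f p v ≠ v ∧ Real.cos θ * G p v v ≤ G p v (fderiv ℝ f p v)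

/-- `m` has a geodesic of length `< π` to one of the points `p, q`, `m ∈ {p, q}` -/
def Short (G : E5 → Bil E5) (ex : E5 × E5 → E5) (p q : E5) : Prop :=
  ∃ a v : E5, (a = p ∨ a = q) ∧ 0 < nm G a v ∧ nm G a v < Real.pi ∧ (ex (a, v) = p ∨ ex (a, v) = q)

end Pool.Agent.ZRT
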