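import Pool.Agent.ZRT.Defs

/-!
# ZRT: statements, part A (geometry, volume, official form)

`E_m = exp_m = ex (m, ·)`; `J_w(t) = Jf ex m v w t = ∂_s exp_m (t (v + s w))`, `T = Tf ex m v t` the
velocity of `t ↦ exp_m (t v)`, `DJ_w = DJf G ex m v w t` the covariant derivative of `J_w`.

LIBRARY (all proved, import `Pool.Agent.Helper26_MVS.All`, namespace `Pool.Agent.MVS.H26`):
`mco_ : McoStatement` (metric compatibility along curves), `jeq_ : JeqStatement` (Jacobi equation for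
a two parameter family of geodesics), `unq_ : UnqStatement` (uniqueness of geodesics),
`spd_ : SpdStatement`, `exb_`, `hex_` (scaling and norm of `ex`), `cct_ : CctStatement` (cotangent
comparison), `sdf_ : SdfStatement`, `pol_ : PolStatement`, `par_`, `br1_`, `br2_`, `br3_`, `rnd_`.  The
first rows below are the ports of rows of MVS (GAU, FLA, FLB, BND, INV) from the circle invariant
normal exponential map to `exp_m` for a general point `m`: the proofs are shorter (no `κ`, `pN`, `pP`,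
no invariance; `J_w(0) = 0` for all `w`).  Read the old proof first: GAU, FLA: `Helper45_MVS`; FLB:
`Helper81_MVS`; BND: `Helper94_MVS`; INV: `Helper27_MVS`; BR2: `Helper26_MVS`; BR4: `Helper28_MVS`.  Facts on `chris`, `riem`:
`Pool.Agent.RF.chrStatement` (Helper36_RF/Chr.lean), `Pool.Agent.RF.sym` (Helper9_RF/Sym.lean),
`cyl` (Helper5_RF/Cyl.lean), `Helper5_RF/Common.lean`, `nat`, `diffeo`, `slice`.

Rows of part A may be used as hypotheses of each other in the order of this file.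
-/

noncomputable section

open scoped ContDiff Topology RealInnerProductSpace
open Set MeasureTheory

namespace Pool.Agent.ZRT

open Pool.Agent.RF Pool.Agent.MVS

/-! ## Exponential map -/

/-- XB1.  Basic facts.  (1) smooth; (2) `dE m 0 = id` (`init`, chain rule); (3),(4) geodesic equation
for `t ↦ exp_m (t v)` with velocity `Tf`; (5) constant speed (MCO or `spd_`);
(6) `⟪c,c'⟫/|c|² = G c c c'` is constant along a geodesic `c` (see the proof of SPD), it is the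
derivative of `log |c|`, so `|exp_m v| = |m| exp(⟪m,v⟫/|m|²)`. -/
def Xb1Statement : Prop :=
  ∀ (G : E5 → Bil E5) (ex : E5 × E5 → E5), IsCyl G → IsExp G ex → ∀ m ∈ Om (Fin 5),
    ContDiff ℝ ∞ (fun u : E5 => ex (m, u)) ∧
    (∀ w, dE ex m 0 w = w) ∧
    (∀ v, ∀ t : ℝ, HasDerivAt (fun s : ℝ => ex (m, s • v)) (Tf ex m v t) t) ∧
    (∀ v, ∀ t : ℝ, HasDerivAt (fun s : ℝ => Tf ex m v s)
      (- chris G (ex (m, t • v)) (Tf ex m v t) (Tf ex m v t)) t) ∧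
    (∀ v, ∀ t : ℝ, G (ex (m, t • v)) (Tf ex m v t) (Tf ex m v t) = G m v v) ∧
    (∀ v, ‖ex (m, v)‖ = ‖m‖ * Real.exp (⟪m, v⟫ / ‖m‖ ^ 2))

/-- XSH.  Shift: the geodesic `t ↦ exp_m (t v)` restarted at time `t` (UNQ; negative times by
`exp_x (s v) = exp_x ((-s)(-v))`, or apply UNQ to the reversed geodesics); second part by
differentiating the first in `s`. -/
def XshStatement : Prop :=
  ∀ (G : E5 → Bil E5) (ex : E5 × E5 → E5), IsCyl G → IsExp G ex → ∀ m ∈ Om (Fin 5),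
    ∀ v, ∀ t s : ℝ, ex (ex (m, t • v), s • Tf ex m v t) = ex (m, (t + s) • v) ∧
      Tf ex (ex (m, t • v)) (Tf ex m v t) s = Tf ex m v (t + s)

/-- XIS.  Isometries map geodesics to geodesics.  `pullb G f = G` on the open set `Om`, so
`chris (pullb G f) = chris G` there and `diffeo` (StarOn) gives
`D²f(u,v) + chris G (f x) (Df u) (Df v) = Df (chris G x u v)` (`Df x` is injective by `pres`, so
invertible); hence `t ↦ f (exp_m (t v))` is a geodesic, UNQ. -/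
def XisStatement : Prop :=
  ∀ (G : E5 → Bil E5) (ex : E5 × E5 → E5) (f : E5 → E5), IsCyl G → IsExp G ex → IsIsoC G f →
    ∀ m ∈ Om (Fin 5), ∀ v, f (ex (m, v)) = ex (f m, fderiv ℝ f m v)

/-- XGA.  Gauss lemma.  `c(s,t) = exp_m (t (v + s w))`: `|∂_t c|² = G m (v+sw) (v+sw)` for all `t`, so at
`s = 0` `∂_t G(T,J) = G(T,D_tJ) = G(T,D_sT) = ½ ∂_s |T|² = G m v w`, `J(0) = 0`; take `t = 1`. -/
def XgaStatement : Prop :=
  ∀ (G : E5 → Bil E5) (ex : E5 × E5 → E5), IsCyl G → IsExp G ex → ∀ m ∈ Om (Fin 5),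
    ∀ v w, G (ex (m, v)) (dE ex m v v) (dE ex m v w) = G m v w

/-- XNM.  Gauss lemma and Cauchy-Schwarz: `|G m v w| = |G(dE v, dE w)| ≤ |dE v| |dE w|`,
`|dE v| = |v|` (XGA with `w = v`). -/
def XnmStatement : Prop :=
  ∀ (G : E5 → Bil E5) (ex : E5 × E5 → E5), IsCyl G → IsExp G ex → ∀ m ∈ Om (Fin 5),
    ∀ v w, |G m v w| ≤ nm G m v * nm G (ex (m, v)) (dE ex m v w)

/-! ## Jacobi fields -/

/-- XFL.  Derivatives of the inner products (MCO with `D DJ_w = riem(T,J_w)T`, JEQ for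
`c(s,t) = exp_m (t (v + s w))`). -/
def XflStatement : Prop :=
  ∀ (G : E5 → Bil E5) (ex : E5 × E5 → E5), IsCyl G → IsExp G ex → ∀ m ∈ Om (Fin 5),
    ∀ v w w' : E5, ∀ t : ℝ,
      HasDerivAt (fun s => G (ex (m, s • v)) (Jf ex m v w s) (Jf ex m v w' s))
        (G (ex (m, t • v)) (DJf G ex m v w t) (Jf ex m v w' t)
          + G (ex (m, t • v)) (Jf ex m v w t) (DJf G ex m v w' t)) t ∧
      HasDerivAt (fun s => G (ex (m, s • v)) (DJf G ex m v w s) (Jf ex m v w' s))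
        (G (ex (m, t • v)) (riem G (ex (m, t • v)) (Tf ex m v t) (Jf ex m v w t) (Tf ex m v t))
            (Jf ex m v w' t)
          + G (ex (m, t • v)) (DJf G ex m v w t) (DJf G ex m v w' t)) t ∧
      HasDerivAt (fun s => G (ex (m, s • v)) (DJf G ex m v w s) (DJf G ex m v w' s))
        (G (ex (m, t • v)) (riem G (ex (m, t • v)) (Tf ex m v t) (Jf ex m v w t) (Tf ex m v t))
            (DJf G ex m v w' t)
          + G (ex (m, t • v)) (DJf G ex m v w t)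
            (riem G (ex (m, t • v)) (Tf ex m v t) (Jf ex m v w' t) (Tf ex m v t))) t

/-- XFB.  Pointwise facts: (1) `J(0) = 0`; (2) `DJ(0) = w`; (3)-(6) linearity in `w`;
(7) `J_v = t T`; (8) `DJ_v = T`; (9) `G(T,J_w) = t G m v w` (XGA at `t v`; at `t = 0` trivial);
(10) `G(T,DJ_w) = G m v w` (derivative of (9), `D T = 0`); (11) scaling:
`Jf ex m (c v) w t = c⁻¹ Jf ex m v w (c t)`, and (12) `DJf ex m (c v) w t = DJf ex m v w (c t)`. -/
def XfbStatement : Prop :=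
  ∀ (G : E5 → Bil E5) (ex : E5 × E5 → E5), IsCyl G → IsExp G ex → ∀ m ∈ Om (Fin 5),
    ∀ v w w' : E5, ∀ t c : ℝ,
      Jf ex m v w 0 = 0 ∧
      DJf G ex m v w 0 = w ∧
      Jf ex m v (w + w') t = Jf ex m v w t + Jf ex m v w' t ∧
      Jf ex m v (c • w) t = c • Jf ex m v w t ∧
      DJf G ex m v (w + w') t = DJf G ex m v w t + DJf G ex m v w' t ∧
      DJf G ex m v (c • w) t = c • DJf G ex m v w t ∧
      Jf ex m v v t = t • Tf ex m v t ∧
      DJf G ex m v v t = Tf ex m v t ∧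
      G (ex (m, t • v)) (Tf ex m v t) (Jf ex m v w t) = t * G m v w ∧
      G (ex (m, t • v)) (Tf ex m v t) (DJf G ex m v w t) = G m v w ∧
      (c ≠ 0 → Jf ex m (c • v) w t = c⁻¹ • Jf ex m v w (c * t) ∧
        DJf G ex m (c • v) w t = DJf G ex m v w (c * t))

/-- RNB.  `|K| ≤ 1` bounds the operator `J ↦ R(T,J)T`.  `b(v,w) = G(R(T,v)T,w)` is symmetric (pair
symmetry) with `|b(v,v)| ≤ G v v` (`SecLe`, `SecGe` with `(T,v)`, area `≤ G v v`); polarisation: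
`4 s b(v,w) = b(v+sw,v+sw) - b(v-sw,v-sw) ≤ 2 G v v + 2 s² G w w` for all real `s`. -/
def RnbStatement : Prop :=
  ∀ (G : E5 → Bil E5), IsCyl G → SecLe G → SecGe G → ∀ x ∈ Om (Fin 5), ∀ T, G x T T = 1 →
    ∀ v w, (G x (riem G x T v T) w) ^ 2 ≤ G x v v * G x w w

/-- CSH (real analysis).  For `ε > 0` let `a = √(α + ε²)`, `b = √(δ + ε²)`: `a' = β/a ≤ b`,
`b' = κ/b ≤ a`.  With `A = ε cosh t + b(0) sinh t`, `B = ε sinh t + b(0) cosh t` (`A' = B`, `B' = A`,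
`A(0) = ε = a(0)`, `B(0) = b(0)`): `p = A - a`, `q = B - b` satisfy `p' ≥ q`, `q' ≥ p`, so
`(e^{-t}(p+q))' ≥ 0`, `p + q ≥ 0`, `(e^t p)' ≥ e^t (p+q) ≥ 0`, `p ≥ 0`.  Let `ε → 0`. -/
def CshStatement : Prop :=
  ∀ α β δ κ : ℝ → ℝ, (∀ t, HasDerivAt α (2 * β t) t) → (∀ t, HasDerivAt δ (2 * κ t) t) →
    (∀ t, 0 ≤ α t) → (∀ t, 0 ≤ δ t) → (∀ t, β t ^ 2 ≤ α t * δ t) → (∀ t, κ t ^ 2 ≤ α t * δ t) →
    α 0 = 0 → ∀ t, 0 ≤ t → α t ≤ δ 0 * Real.sinh t ^ 2

/-- XLO.  Lower bounds (`K ≤ 1`), unit speed: CCT with `α = G(J,J)`, `β = G(DJ,J)`, `δ = G(DJ,DJ)`,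
`β' = G(riem(T,J)T,J) + δ ≥ δ - α`, `β'(0) = δ(0) = G m w w`. -/
def XloStatement : Prop :=
  ∀ (G : E5 → Bil E5) (ex : E5 × E5 → E5), IsCyl G → SecLe G → IsExp G ex → ∀ m ∈ Om (Fin 5),
    ∀ v w : E5, G m v v = 1 → ∀ t : ℝ, 0 < t → t < Real.pi →
      Real.cot t * G (ex (m, t • v)) (Jf ex m v w t) (Jf ex m v w t) ≤
        G (ex (m, t • v)) (DJf G ex m v w t) (Jf ex m v w t) ∧
      G m w w * Real.sin t ^ 2 ≤ G (ex (m, t • v)) (Jf ex m v w t) (Jf ex m v w t)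

/-- XUP.  Upper bound (`|K| ≤ 1`), unit speed, all `t ≥ 0`: CSH with `α = G(J,J)`, `δ = G(DJ,DJ)`,
`κ = G(riem(T,J)T,DJ)` (RNB, `G(T,T) = 1`). -/
def XupStatement : Prop :=
  ∀ (G : E5 → Bil E5) (ex : E5 × E5 → E5), Geo G ex → ∀ m ∈ Om (Fin 5),
    ∀ v w : E5, G m v v = 1 → ∀ t : ℝ, 0 ≤ t →
      G (ex (m, t • v)) (Jf ex m v w t) (Jf ex m v w t) ≤ G m w w * Real.sinh t ^ 2

/-- XDE.  `exp_m` is a local diffeomorphism on the ball of radius `π`: for `v = r v₁`, `G m v₁ v₁ = 1`,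
`dE m v w = r⁻¹ J_w(r)` (field along `v₁`), XLO; `v = 0`: XB1 (2).  Injective, so bijective. -/
def XdeStatement : Prop :=
  ∀ (G : E5 → Bil E5) (ex : E5 × E5 → E5), IsCyl G → SecLe G → IsExp G ex → ∀ m ∈ Om (Fin 5),
    ∀ v, nm G m v < Real.pi →
      (∀ w, Real.sin (nm G m v) ^ 2 * G m w w ≤
        nm G m v ^ 2 * G (ex (m, v)) (dE ex m v w) (dE ex m v w)) ∧
      Function.Bijective (fderiv ℝ (fun u : E5 => ex (m, u)) v)

/-- XPO.  Rauch upper bound in polar form: `dE m (r u) (a u + r b n) = a T + b J_n(r)` (fields along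
`u`), `G(T,T) = 1`, `G(T,J_n) = 0`, `G(J_n,J_n) ≤ sinh² r` (XUP). -/
def XpoStatement : Prop :=
  ∀ (G : E5 → Bil E5) (ex : E5 × E5 → E5), Geo G ex → ∀ m ∈ Om (Fin 5),
    ∀ u n : E5, G m u u = 1 → G m n n = 1 → G m u n = 0 → ∀ r a b : ℝ, 0 ≤ r →
      G (ex (m, r • u)) (dE ex m (r • u) (a • u + (r * b) • n))
        (dE ex m (r • u) (a • u + (r * b) • n)) ≤ a ^ 2 + Real.sinh r ^ 2 * b ^ 2

/-- XHA.  Second derivative of `½|y|²` along a curve `y(s)` in `T_m` whose image `c = exp_m ∘ y` is a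
geodesic.  `(½|y|²)' = G m y y' = G(dE y y, dE y y')` (XGA).  With `C(s,τ) = exp_m (τ y(s))`:
`∂_τ C = dE y y` and `∂_s C = c'` at `τ = 1`, `D_s ∂_τ C = D_τ ∂_s C = DJf G ex m (y s) (y' s) 1`, and
`D_s c' = 0`, so by MCO `(½|y|²)'' = G(DJf .. 1, Jf .. 1)`, `Jf ex m y y' 1 = dE y y'`. -/
def XhaStatement : Prop :=
  ∀ (G : E5 → Bil E5) (ex : E5 × E5 → E5), IsCyl G → IsExp G ex → ∀ m ∈ Om (Fin 5),
    ∀ (I : Set ℝ) (y : ℝ → E5), IsOpen I → ContDiffOn ℝ ∞ y I →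
      (∀ s ∈ I, deriv (deriv (fun r => ex (m, y r))) s =
        - chris G (ex (m, y s)) (deriv (fun r => ex (m, y r)) s) (deriv (fun r => ex (m, y r)) s)) →
      ∀ s ∈ I, HasDerivAt (fun r => G m (y r) (deriv y r))
        (G (ex (m, y s)) (DJf G ex m (y s) (deriv y s) 1) (Jf ex m (y s) (deriv y s) 1)) s

/-- XHB.  Lower bound for the right side of XHA (`K ≤ 1`), `0 < r = |v| < π`, `a = G m v w / r`:
`G(DJ_w,J_w)(1) ≥ a² + r cot r (|dE v w|² - a²)`.  Let `v = r u`, `w = a u + w₁`, `G m u w₁ = 0`; by XFB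
(11),(12): `G(DJ,J)(1) = r⁻¹ G(DJ_w,J_w)(r)` (fields along `u`); `J_w(r) = a r T + J_{w₁}(r)`,
`DJ_w(r) = a T + DJ_{w₁}(r)`, `T` orthogonal to `J_{w₁}`, `DJ_{w₁}`; XLO for `w₁`; and
`|J_{w₁}(r)|² = r² (|dE v w|² - a²)`. -/
def XhbStatement : Prop :=
  ∀ (G : E5 → Bil E5) (ex : E5 × E5 → E5), IsCyl G → SecLe G → IsExp G ex → ∀ m ∈ Om (Fin 5),
    ∀ v w, 0 < nm G m v → nm G m v < Real.pi →
      (G m v w / nm G m v) ^ 2 + nm G m v * Real.cot (nm G m v) *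
          (G (ex (m, v)) (dE ex m v w) (dE ex m v w) - (G m v w / nm G m v) ^ 2) ≤
        G (ex (m, v)) (DJf G ex m v w 1) (Jf ex m v w 1)

/-- XHC.  Hessian comparison: for a curve `y(s) ≠ 0` in the ball of radius `π` of `T_m` such that
`exp_m ∘ y` is a geodesic of speed `ℓ`, `f = cos |y|` satisfies `f'' + ℓ² f ≤ 0`.  With `r = |y|`:
`r r' = G m y y'`, `r'² + r r'' = (½ r²)'' ≥ r'² + r cot r (ℓ² - r'²)` (XHA, XHB), so
`f'' = -cos r r'² - sin r r'' ≤ -cos r r'² - cos r (ℓ² - r'²)`. -/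
def XhcStatement : Prop :=
  ∀ (G : E5 → Bil E5) (ex : E5 × E5 → E5), IsCyl G → SecLe G → IsExp G ex → ∀ m ∈ Om (Fin 5),
    ∀ (I : Set ℝ) (y : ℝ → E5) (l : ℝ), IsOpen I → ContDiffOn ℝ ∞ y I →
      (∀ s ∈ I, y s ≠ 0 ∧ nm G m (y s) < Real.pi) →
      (∀ s ∈ I, deriv (deriv (fun r => ex (m, y r))) s =
        - chris G (ex (m, y s)) (deriv (fun r => ex (m, y r)) s) (deriv (fun r => ex (m, y r)) s)) →
      (∀ s ∈ I, G (ex (m, y s)) (deriv (fun r => ex (m, y r)) s) (deriv (fun r => ex (m, y r)) s)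
        = l ^ 2) →
      ∃ f' f'' : ℝ → ℝ, ∀ s ∈ I,
        HasDerivAt (fun r => Real.cos (nm G m (y r))) (f' s) s ∧ HasDerivAt f' (f'' s) s ∧
        f'' s ≤ - l ^ 2 * Real.cos (nm G m (y s))

/-! ## Transport of the fixed points to the poles, volume -/

/-- a norm preserving diffeomorphism of `ℝ^5 \ {0}`, homogeneous of degree one, and its inverse -/
structure IsDif (Ψ Ψ' : E5 → E5) : Prop where
  smooth : ContDiffOn ℝ ∞ Ψ (Om (Fin 5))
  smooth' : ContDiffOn ℝ ∞ Ψ' (Om (Fin 5))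
  norm : ∀ x, ‖Ψ x‖ = ‖x‖
  norm' : ∀ x, ‖Ψ' x‖ = ‖x‖
  hom : ∀ c : ℝ, 0 < c → ∀ x ∈ Om (Fin 5), Ψ (c • x) = c • Ψ x
  hom' : ∀ c : ℝ, 0 < c → ∀ x ∈ Om (Fin 5), Ψ' (c • x) = c • Ψ' x
  left : ∀ x ∈ Om (Fin 5), Ψ' (Ψ x) = x
  right : ∀ x ∈ Om (Fin 5), Ψ (Ψ' x) = x

/-- PSI.  Two distinct points of `S^4` can be moved to `±e_4`.  Let `O` be a linear isometry with
`O e_4 = p` (identity or a reflection) and `q' = O⁻¹ q ≠ e_4`.  For `a ⟂ e_4` put `s = x_4 - |x|`,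
`c = ⟪x,a⟫ + ½|a|² s`, `y = x + s a - c e_4` (the action of a parabolic Lorentz transformation on the
null vectors `(x,|x|)`).  Then `|y|² = (|x| - c)²` and `|x| - c > 0` for `x ≠ 0`
(`⟪x,a⟫ ≤ ½(|x|+x_4) + ½|a|²(|x|-x_4)` since `|x'|² = (|x|+x_4)(|x|-x_4)`), so `|y| = |x| - c`;
`P_a x = (|x|/|y|) y` is smooth on `Om`, homogeneous, norm preserving, with inverse `P_{-a}`
(for `y` one has `y_4 - |y| = s`, so the inverse formula `y - s a - (-⟪y,a⟫ + ½|a|² s) e_4 = x` is an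
identity), `P_a e_4 = e_4` and
`P_a (-e_4) = ((|a|²-1) e_4 - 2a)/(1+|a|²)`, which is `q'` for `a = -(q' - q'_4 e_4)/(1-q'_4)`.
`Ψ = O ∘ P_a`, `Ψ' = P_{-a} ∘ O⁻¹`. -/
def PsiStatement : Prop :=
  ∀ p q : E5, ‖p‖ = 1 → ‖q‖ = 1 → p ≠ q →
    ∃ Ψ Ψ' : E5 → E5, IsDif Ψ Ψ' ∧ Ψ (eb 4) = p ∧ Ψ (-(eb 4)) = q

/-- CYP.  The pullback by such a map is a cylinder metric with the same curvature bounds: `diffeo`
(`fderiv Ψ x` is invertible since `Ψ' ∘ Ψ = id`), `nat` with `StarOn`; `radial`: `DΨ x x = Ψ x` and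
`⟪Ψ x, DΨ x w⟫ = ⟪x,w⟫` (differentiate `|Ψ x|² = |x|²`); `homog`: `DΨ (c x) = DΨ x`. -/
def CypStatement : Prop :=
  ∀ (G : E5 → Bil E5) (Ψ Ψ' : E5 → E5), IsCyl G → IsDif Ψ Ψ' →
    IsCyl (pullb G Ψ) ∧ (SecLe G → SecLe (pullb G Ψ)) ∧ (SecGe G → SecGe (pullb G Ψ))

/-- VLP.  The volume does not change: `Ψ` maps the slab bijectively onto itself,
`sd (pullb G Ψ x) = |det DΨ x| sd (G (Ψ x))` (`sdf_`), change of variables
(`integral_image_eq_integral_abs_det_fderiv_smul`, see `Helper82_MVS/CHV.lean`). -/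
def VlpStatement : Prop :=
  ∀ (G : E5 → Bil E5) (Ψ Ψ' : E5 → E5), IsCyl G → IsDif Ψ Ψ' →
    ∫ x in slab (Fin 5), sd (pullb G Ψ x) = ∫ x in slab (Fin 5), sd (G x)

/-- ISP.  Conjugation of the isometry: `f₁ = Ψ' ∘ f ∘ Ψ`; `DΨ (f₁ x) (Df₁ x v) = Df (Ψ x) (DΨ x v)`
(differentiate `Ψ ∘ f₁ = f ∘ Ψ` on `Om`). -/
def IspStatement : Prop :=
  ∀ (G : E5 → Bil E5) (Ψ Ψ' f : E5 → E5) (θ : ℝ), IsCyl G → IsDif Ψ Ψ' → IsIsoC G f →
    IsIsoC (pullb G Ψ) (fun x => Ψ' (f (Ψ x))) ∧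
    ∀ a, RotFixC G f θ (Ψ a) → RotFixC (pullb G Ψ) (fun x => Ψ' (f (Ψ x))) θ a

/-- VOL (from `Pool/Agent/MVZ`, helper35): without short geodesics between the poles the volume is at
least `8π²/3`. -/
def VolStatement : Prop :=
  ∀ (G : E5 → Bil E5) (ex : E5 × E5 → E5), IsCyl G → SecLe G → IsExp G ex →
    ¬ Short G ex (eb 4) (-(eb 4)) → 8 * Real.pi ^ 2 / 3 ≤ ∫ x in slab (Fin 5), sd (G x)

/-! ## Official form -/

open Pool.Agent.SecondKind Pool.Agent.MinVolSphere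

/-- YB2.  `|K| ≤ 1` for the cylinder metric; the proof of BR2 with the other sign. -/
def Yb2Statement : Prop :=
  ∀ (g : Form 4) (G : E5 → Bil E5), IsMetric g → IsCyl G →
    (∀ x v w : Fin 5 → ℝ, Tangent x v → Tangent x w → G (vc x) (vc v) (vc w) = g x v w) →
    AbsSecLeOne g → SecLe G ∧ SecGe G

/-- YB4.  The isometry on the cylinder: `f x = |x| vc (φ (x/|x|))`, `f 0 = 0`.  `f` is homogeneous, so
`Df x x = f x`; for tangential `v` at a unit vector `x`, `Df x v = vc (Dφ x v)`, tangential at `φ x`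
(differentiate `|φ|² = 1` along curves in the sphere); `pres` by splitting into radial and tangential
parts (`IsCyl.radial`), general `x` by homogeneity. -/
def Yb4Statement : Prop :=
  ∀ (g : Form 4) (G : E5 → Bil E5) (φ : (Fin 5 → ℝ) → Fin 5 → ℝ), IsMetric g → IsCyl G →
    (∀ x v w : Fin 5 → ℝ, Tangent x v → Tangent x w → G (vc x) (vc v) (vc w) = g x v w) →
    IsIso g φ → ∃ f : E5 → E5, IsIsoC G f ∧ (∀ x, OnSphere x → f (vc x) = vc (φ x)) ∧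
      ∀ x v, Tangent x v → fderiv ℝ f (vc x) (vc v) = vc (fderiv ℝ φ x v)

/-- YB5.  Rotation angle on the cylinder. -/
def Yb5Statement : Prop :=
  ∀ (g : Form 4) (G : E5 → Bil E5) (φ : (Fin 5 → ℝ) → Fin 5 → ℝ) (f : E5 → E5) (θ : ℝ)
    (p : Fin 5 → ℝ), IsMetric g → IsCyl G →
    (∀ x v w : Fin 5 → ℝ, Tangent x v → Tangent x w → G (vc x) (vc v) (vc w) = g x v w) →
    IsIso g φ → IsIsoC G f → (∀ x, OnSphere x → f (vc x) = vc (φ x)) →
    (∀ x v, Tangent x v → fderiv ℝ f (vc x) (vc v) = vc (fderiv ℝ φ x v)) →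
    RotFix g φ θ p → RotFixC G f θ (vc p)

/-- YRO.  The linear rotations.  `R = circ α β 1` is linear; at `±e_4` it acts on `T = ℝ^4` as a linear
`g`-isometry; `g(v,Rv) = g(R⁻¹v,v)`, so `2 g(v,Rv) = g(v,(R+R⁻¹)v)`, and `R + R⁻¹ = 2 cos α` on
`P₁ = ℝe_0+ℝe_1`, `2 cos β` on `P₂ = ℝe_2+ℝe_3`; `R+R⁻¹` is `g`-selfadjoint, so either `cos α = cos β` or
`P₁ ⟂ P₂` for `g`; in both cases `g(v,Rv) ≥ min(cos α, cos β) g(v,v) ≥ cos(2/5) g(v,v)`.
`Rv ≠ v` for `v ≠ 0` tangential since `0 < |α|,|β| ≤ 2/5 < 2π`. -/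
def YroStatement : Prop :=
  ∀ (g : Form 4) (α β : ℝ), IsMetric g → 0 < |α| → |α| ≤ 2 / 5 → 0 < |β| → |β| ≤ 2 / 5 →
    RotInvariant α β g →
    IsIso g (circ α β 1) ∧ RotFix g (circ α β 1) (2 / 5) ![0, 0, 0, 0, 1] ∧
      RotFix g (circ α β 1) (2 / 5) ![0, 0, 0, 0, -1]

/-- YPW.  Powers: `circ α β 1` iterated `k` times is `circ (kα) (kβ) 1`, and adding multiples of `2π` to
the angles does not change it.  So invariance passes to `circ α' β' 1`. -/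
def YpwStatement : Prop :=
  ∀ (g : Form 4) (α β : ℝ) (k : ℕ) (i j : ℤ), RotInvariant α β g →
    RotInvariant (k * α - i * (2 * Real.pi)) (k * β - j * (2 * Real.pi)) g

/-- YDI (Dirichlet, pigeonhole).  For `n ≥ 257` and `a, b` prime to `n` there is `k` such that
`2πka/n` and `2πkb/n` have nonzero distance `≤ 2/5` to `2πℤ`: among the `n` points
`(ka/n, kb/n) mod 1`, `0 ≤ k < n`, two lie in the same of the `256` squares of side `1/16`, their
difference gives `0 < k < n` with both distances `< 1/16 < 1/(5π)`, nonzero since `n ∤ ka`, `n ∤ kb`. -/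
def YdiStatement : Prop :=
  ∀ (n : ℕ) (a b : ℤ), 257 ≤ n → IsCoprime a (n : ℤ) → IsCoprime b (n : ℤ) →
    ∃ (k : ℕ) (i j : ℤ), 0 < |k * (2 * Real.pi * a / n) - i * (2 * Real.pi)| ∧
      |k * (2 * Real.pi * a / n) - i * (2 * Real.pi)| ≤ 2 / 5 ∧
      0 < |k * (2 * Real.pi * b / n) - j * (2 * Real.pi)| ∧
      |k * (2 * Real.pi * b / n) - j * (2 * Real.pi)| ≤ 2 / 5

/-- MAIN (part B, helper35).  The core of Theorem Z. -/
def MainStatement : Prop :=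
  ∀ (G : E5 → Bil E5) (ex : E5 × E5 → E5) (f : E5 → E5), Geo G ex → IsIsoC G f → ∀ p q : E5,
    p ≠ q → RotFixC G f (2 / 5) p → RotFixC G f (2 / 5) q → ¬ Short G ex p q

/-- YLB.  The lower bound in official form: BR1, YB2, EXB, YB4, YB5, PSI, CYP, VLP, ISP, MAIN (for the
poles and `pullb G Ψ`), VOL, BR3. -/
def YlbStatement : Prop :=
  ∀ (g : Form 4) (φ : (Fin 5 → ℝ) → Fin 5 → ℝ) (p q : Fin 5 → ℝ), IsMetric g → AbsSecLeOne g →
    IsIso g φ → p ≠ q → RotFix g φ (2 / 5) p → RotFix g φ (2 / 5) q →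
    8 * Real.pi ^ 2 / 3 ≤ vol g

/-- FIN.  The final theorem.
(1) every metric on `S^4` with `|K| ≤ 1` having an isometry with two fixed points at which all tangent
vectors are rotated by angles in `(0, 2/5]` has volume `≥ 8π²/3`;
(2) for all real `α, β` such that some multiple `(kα, kβ)` has both coordinates at nonzero distance
`≤ 2/5` from `2πℤ`, the infimum of the volume over the metrics with `|K| ≤ 1` invariant under the
single rotation by `(α,β)` is exactly `8π²/3`;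
(3) in particular for every rotation of finite order `n ≥ 257` which together with its nontrivial powers
has only two fixed points. -/
def FinStatement : Prop :=
  (∀ (g : Form 4) (φ : (Fin 5 → ℝ) → Fin 5 → ℝ) (p q : Fin 5 → ℝ), IsMetric g → AbsSecLeOne g →
    IsIso g φ → p ≠ q → RotFix g φ (2 / 5) p → RotFix g φ (2 / 5) q →
    8 * Real.pi ^ 2 / 3 ≤ vol g) ∧
  (∀ (α β : ℝ) (k : ℕ) (i j : ℤ),
    0 < |k * α - i * (2 * Real.pi)| → |k * α - i * (2 * Real.pi)| ≤ 2 / 5 →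
    0 < |k * β - j * (2 * Real.pi)| → |k * β - j * (2 * Real.pi)| ≤ 2 / 5 →
    sInf {V : ℝ | ∃ g : Form 4, IsMetric g ∧ AbsSecLeOne g ∧ RotInvariant α β g ∧ vol g = V} =
      8 * Real.pi ^ 2 / 3) ∧
  (∀ (n : ℕ) (a b : ℤ), 257 ≤ n → IsCoprime a (n : ℤ) → IsCoprime b (n : ℤ) →
    sInf {V : ℝ | ∃ g : Form 4, IsMetric g ∧ AbsSecLeOne g ∧
      RotInvariant (2 * Real.pi * a / n) (2 * Real.pi * b / n) g ∧ vol g = V} =
      8 * Real.pi ^ 2 / 3)

end Pool.Agent.ZRT
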