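import Pool.Agent.ZRT.StmtsA

/-!
# ZRT: statements, part B (lifts, core of Theorem Z, assembly)

All rows of part A (StmtsA.lean) may be used as hypotheses.  Everything happens in `(Om, G)`.

OVERVIEW.  Let `u ≠ U(w)` be two unit vectors at `p` with angle `w ≤ 2/5`, such that the two geodesics
of length `L < π` with these initial vectors both end at `q`, and suppose there is no geodesic loop at
`q` of length `< L` (structure `Core`).  This is impossible: let `m` be the midpoint of the first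
geodesic, `v₀` its velocity there.  `H(s,t)` is the lift through `exp_m` of the family
`exp_p(t L U(s w))` with `H(0,1/2) = 0` (CH1, CH2: all norms `≤ 0.93 + π/2 < π`).  `H(·,0) = -(L/2) v₀`.
The hyperbolic geodesic between the points `L u`, `L U(w)` in polar coordinates has length `l < L` (HYP), its
image `c` under `exp_p` is a loop at `q` of length `≤ l` (Rauch, XPO), its lift through `exp_q` is closed by
the hypothesis on loops (CH3), so its lift through `exp_m` starting at `(L/2) v₀` is closed (CH4):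
`H(1,1) = (L/2) v₀`.  Now `η = H(1,·)` is a geodesic of length `L < π` between `∓(L/2) v₀` for the metric
`exp_m^* G` of curvature `≤ 1`, so `cos|η| ≥ cos(L(t-1/2))` and `η(1/2) = 0` (CH5); so the second geodesic
passes through `m` in the same direction as the first, `u = U(w)` (CH6).
-/

noncomputable section

open scoped ContDiff Topology RealInnerProductSpace
open Set MeasureTheory

namespace Pool.Agent.ZRT

open Pool.Agent.RF Pool.Agent.MVS

/-- `y` is a continuous lift of `c` through `exp_m` on `[0,1]`, inside the ball of radius `π`. -/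
structure IsLift (G : E5 → Bil E5) (ex : E5 × E5 → E5) (m : E5) (c y : ℝ → E5) : Prop where
  cont : ContinuousOn y (Icc 0 1)
  lt : ∀ s ∈ Icc (0 : ℝ) 1, nm G m (y s) < Real.pi
  eq : ∀ s ∈ Icc (0 : ℝ) 1, ex (m, y s) = c s

/-- `c` is differentiable on `[0,1]` with speed at most `l` -/
def Speed (G : E5 → Bil E5) (c : ℝ → E5) (l : ℝ) : Prop :=
  ∃ c' : ℝ → E5, ∀ s ∈ Icc (0 : ℝ) 1,
    HasDerivWithinAt c (c' s) (Icc 0 1) s ∧ nm G (c s) (c' s) ≤ l

/-- the unit vector at angle `θ` from `u` in the plane of the orthonormal vectors `u, n` -/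
def Un (u n : E5) (θ : ℝ) : E5 := Real.cos θ • u + Real.sin θ • n

/-- The data of the core argument: two geodesics of length `L < π` from `p` to `q` with angle
`w ∈ (0, 2/5]` at `p`, and no geodesic loop at `q` shorter than `L`. -/
structure Core (G : E5 → Bil E5) (ex : E5 × E5 → E5) (p q u n : E5) (L w : ℝ) : Prop where
  geo : Geo G ex
  hp : p ∈ Om (Fin 5)
  hq : q ∈ Om (Fin 5)
  uu : G p u u = 1
  nn : G p n n = 1
  un : G p u n = 0
  L0 : 0 < L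
  Lpi : L < Real.pi
  w0 : 0 < w
  w1 : w ≤ 2 / 5
  start : ex (p, L • u) = q
  stop : ex (p, L • Un u n w) = q
  min : ∀ v, ex (q, v) = q → nm G q v < L → v = 0

/-! ## Lifts through `exp_m` -/

/-- LNB.  Norm estimate along lifts.  `exp_m` is a local diffeomorphism on the ball of radius `π`
(XDE: `fderiv` bijective, `ContDiffAt.toOpenPartialHomeomorph` or `HasStrictFDerivAt.to_localInverse`), so a
continuous lift `y` of a differentiable curve `c` is differentiable (within `[0,1]`) with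
`dE m (y s) (y' s) = c' s`.  Where `y s ≠ 0`, `|y|' = G m y y' / |y|` and `|G m y y'| ≤ |y| |c'| ≤ |y| l`
(XNM).  Where `y s = 0`, `dE m 0 = id` (XB1), so `nm (y t) = nm (y' s) |t - s| + o(|t-s|) ≤ l |t-s| + o`.
Conclude with `image_norm_le_of_norm_deriv_right_le_deriv_boundary`-type theorems
(`image_le_of_liminf_slope_right_le_deriv_boundary`), on `[s,t]` and for the reversed curve. -/
def LnbStatement : Prop :=
  ∀ (G : E5 → Bil E5) (ex : E5 × E5 → E5), IsCyl G → SecLe G → IsExp G ex → ∀ m ∈ Om (Fin 5),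
    ∀ (c y : ℝ → E5) (l : ℝ), 0 ≤ l → Speed G c l → IsLift G ex m c y →
      ∀ s ∈ Icc (0 : ℝ) 1, ∀ t ∈ Icc (0 : ℝ) 1, nm G m (y t) ≤ nm G m (y s) + l * |t - s|

/-- LNC.  The same on a subinterval `[0,b]` (for the proof of LEX): reparametrise LNB
(`c(b s)`, `y(b s)`, speed `≤ b l`). -/
def LncStatement : Prop :=
  ∀ (G : E5 → Bil E5) (ex : E5 × E5 → E5), IsCyl G → SecLe G → IsExp G ex → ∀ m ∈ Om (Fin 5),
    ∀ (c y : ℝ → E5) (l b : ℝ), 0 ≤ l → 0 ≤ b → b ≤ 1 → Speed G c l →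
      ContinuousOn y (Icc 0 b) → (∀ s ∈ Icc (0 : ℝ) b, nm G m (y s) < Real.pi) →
      (∀ s ∈ Icc (0 : ℝ) b, ex (m, y s) = c s) →
      ∀ s ∈ Icc (0 : ℝ) b, nm G m (y s) ≤ nm G m (y 0) + l * s

/-- LUN.  Uniqueness of lifts: two lifts of `c` which agree at one point of `[0,1]` agree (the set where
they agree is closed, and open because `exp_m` is locally injective on the ball, XDE). -/
def LunStatement : Prop :=
  ∀ (G : E5 → Bil E5) (ex : E5 × E5 → E5), IsCyl G → SecLe G → IsExp G ex → ∀ m ∈ Om (Fin 5),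
    ∀ (c y z : ℝ → E5), IsLift G ex m c y → IsLift G ex m c z →
      (∃ s ∈ Icc (0 : ℝ) 1, y s = z s) → ∀ s ∈ Icc (0 : ℝ) 1, y s = z s

/-- LEX.  Existence of lifts.  Let `R = nm y₀ + l < π`; the closed ball `{nm ≤ R}` is compact.  Let `T` be the
supremum of the `b ∈ [0,1]` such that there is a lift on `[0,b]` starting at `y₀` (unique, so they fit
together: a lift on `[0,T)`); norms stay `≤ nm y₀ + l s` (LNC).  By compactness there are `s_k → T` with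
`y(s_k) → z`, `nm z ≤ R`, `exp_m z = c(T)`; the local inverse of `exp_m` at `z` (XDE) gives a lift on a
neighbourhood of `T` which agrees with `y` at some `s_k`, hence extends it. -/
def LexStatement : Prop :=
  ∀ (G : E5 → Bil E5) (ex : E5 × E5 → E5), IsCyl G → SecLe G → IsExp G ex → ∀ m ∈ Om (Fin 5),
    ∀ (c : ℝ → E5) (y₀ : E5) (l : ℝ), 0 ≤ l → Speed G c l → ex (m, y₀) = c 0 →
      nm G m y₀ + l < Real.pi →
      ∃ y : ℝ → E5, IsLift G ex m c y ∧ y 0 = y₀ ∧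
        ∀ s ∈ Icc (0 : ℝ) 1, nm G m (y s) ≤ nm G m y₀ + l * s

/-- LTP.  Joint continuity of a family of lifts: Mathlib's `IsLocalHomeomorph.continuous_lift` (file
`Mathlib/Topology/Homotopy/Lifting.lean`) for the restriction of `exp_m` to the open ball
`{v // nm G m v < π}` (a local homeomorphism by XDE, separated since it is a map from a Hausdorff space);
or directly: the set of `t` such that `H` is continuous near `(s₀, t)` is open and closed. -/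
def LtpStatement : Prop :=
  ∀ (G : E5 → Bil E5) (ex : E5 × E5 → E5), IsCyl G → SecLe G → IsExp G ex → ∀ m ∈ Om (Fin 5),
    ∀ (c : ℝ × ℝ → E5) (H : ℝ → ℝ → E5), ContinuousOn c (Icc 0 1 ×ˢ Icc 0 1) →
      (∀ s ∈ Icc (0 : ℝ) 1, IsLift G ex m (fun t => c (s, t)) (H s)) →
      ContinuousOn (fun s => H s 0) (Icc 0 1) →
      ContinuousOn (fun x : ℝ × ℝ => H x.1 x.2) (Icc 0 1 ×ˢ Icc 0 1)

/-- LSM.  A continuous lift of a smooth curve is smooth (local inverses of `exp_m` are smooth). -/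
def LsmStatement : Prop :=
  ∀ (G : E5 → Bil E5) (ex : E5 × E5 → E5), IsCyl G → SecLe G → IsExp G ex → ∀ m ∈ Om (Fin 5),
    ∀ (c y : ℝ → E5), ContDiff ℝ ∞ c → IsLift G ex m c y → ContDiffOn ℝ ∞ y (Ioo 0 1)

/-! ## Real analysis -/

/-- HYP.  Hyperbolic geodesic in polar coordinates.  `A = 2 cosh(L/2) sin(w/2) < 1` (monotone in `L`, `w`;
at `L = π`, `w = 2/5`: `sin(1/5) < 0.19867`, `cosh(π/2) < 2.5093`, product `< 0.9971`).  Let
`sinh(l/2) = sinh L sin(w/2) = A sinh(L/2)`, so `0 < l < L`; `cosh r₀ = cosh L / cosh(l/2) > 1`, and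
`r(s) = arcosh(cosh r₀ cosh(l(s-1/2)))`, `φ(s) = w/2 + arctan(tanh(l(s-1/2)) / sinh r₀)`.
Then `r'² + sinh²(r) φ'² = l²`, `r(0) = r(1) = L` (`r ≤ L` in between, `r ≥ r₀ > 0`), and
`tan(w/2) = tanh(l/2)/sinh r₀` (from the definition of `l`, `r₀`).  (With `C = cosh r₀`, `S = sinh r₀`,
`x = l(s-1/2)`: `sinh² r = C² cosh² x - 1`, `r' = l C sinh x / sinh r`, `φ' = l S / (S² cosh² x + sinh² x)`
and `S² cosh² x + sinh² x = C² cosh² x - 1 = sinh² r`, so `sinh² r (r'² + sinh² r φ'²) =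
l² (C² sinh² x + S²) = l² (C² cosh² x - 1)`.)  Any other smooth curve with these properties is fine. -/
def HypStatement : Prop :=
  ∀ L w : ℝ, 0 < L → L < Real.pi → 0 < w → w ≤ 2 / 5 →
    ∃ l : ℝ, 0 < l ∧ l < L ∧ ∃ r r' φ φ' : ℝ → ℝ, (∀ s, HasDerivAt r (r' s) s) ∧
      (∀ s, HasDerivAt φ (φ' s) s) ∧ r 0 = L ∧ r 1 = L ∧ φ 0 = 0 ∧ φ 1 = w ∧
      ∀ s ∈ Icc (0 : ℝ) 1, 0 < r s ∧ r s ≤ L ∧ 0 ≤ φ s ∧ φ s ≤ w ∧
        r' s ^ 2 + Real.sinh (r s) ^ 2 * φ' s ^ 2 ≤ l ^ 2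

/-- STU.  Sturm comparison.  `k(t) = cos(L(t-1/2)) > 0` on `[0,1] ⊇ [a,b]`, `k'' = -L² k`.  On `(a,b)`:
`(f'k - fk')' = f''k - fk'' ≤ 0`.  If `f < k` somewhere, let `h = f/k` have its minimum on `[a,b]` at
`t₀ ∈ (a,b)`, `h(t₀) < 1 ≤ h(a), h(b)`; `k² h' = f'k - fk'` is nonincreasing and vanishes at `t₀`, so
`h' ≤ 0` after `t₀`, hence `h(b) ≤ h(t₀) < 1`, contradiction. -/
def StuStatement : Prop :=
  ∀ (L a b : ℝ) (f f' f'' : ℝ → ℝ), 0 < L → L < Real.pi → 0 ≤ a → a < b → b ≤ 1 →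
    ContinuousOn f (Icc a b) →
    (∀ t ∈ Ioo a b, HasDerivAt f (f' t) t ∧ HasDerivAt f' (f'' t) t ∧ f'' t ≤ - L ^ 2 * f t) →
    Real.cos (L * (a - 1 / 2)) ≤ f a → Real.cos (L * (b - 1 / 2)) ≤ f b →
    ∀ t ∈ Icc a b, Real.cos (L * (t - 1 / 2)) ≤ f t

/-! ## The core -/

/-- CH1.  The arc at half radius: lift of `s ↦ exp_p((L/2) U(s w))` through `exp_m`,
`m = exp_p((L/2) u)`, from `0`.  Speed `≤ sinh(L/2) w ≤ 2.302 * 0.4 < 0.93` (XPO with `u := U(s w)`,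
`n := -sin(sw) u + cos(sw) n`, `r = L/2`, `a = 0`, `b = w`), LEX. -/
def Ch1Statement : Prop :=
  ∀ (G : E5 → Bil E5) (ex : E5 × E5 → E5) (p q u n : E5) (L w : ℝ), Core G ex p q u n L w →
    ∃ a : ℝ → E5, IsLift G ex (ex (p, (L / 2) • u)) (fun s => ex (p, (L / 2) • Un u n (s * w))) a ∧
      a 0 = 0 ∧ ∀ s ∈ Icc (0 : ℝ) 1, nm G (ex (p, (L / 2) • u)) (a s) ≤ 93 / 100

/-- the lifted family: `H(s,t)` lies over `exp_p(t L U(s w))` -/
structure IsFam (G : E5 → Bil E5) (ex : E5 × E5 → E5) (p u n : E5) (L w : ℝ) (H : ℝ → ℝ → E5) :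
    Prop where
  cont : ContinuousOn (fun x : ℝ × ℝ => H x.1 x.2) (Icc 0 1 ×ˢ Icc 0 1)
  lt : ∀ s ∈ Icc (0 : ℝ) 1, ∀ t ∈ Icc (0 : ℝ) 1, nm G (ex (p, (L / 2) • u)) (H s t) < Real.pi
  eq : ∀ s ∈ Icc (0 : ℝ) 1, ∀ t ∈ Icc (0 : ℝ) 1,
    ex (ex (p, (L / 2) • u), H s t) = ex (p, (t * L) • Un u n (s * w))
  zero : ∀ t ∈ Icc (0 : ℝ) 1, H 0 t = ((t - 1 / 2) * L) • Tf ex p u (L / 2)
  base : ∀ s ∈ Icc (0 : ℝ) 1, H s 0 = (-(L / 2)) • Tf ex p u (L / 2)

/-- CH2.  For every `s`: lift `τ ↦ exp_p(((1+τ)L/2) U(s w))` and `τ ↦ exp_p(((1-τ)L/2) U(s w))`,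
`τ ∈ [0,1]`, from `a(s)` (CH1) by LEX (speed `L/2`, constant speed of geodesics XB1; norms
`≤ 0.93 + L/2 < π`); joint continuity on both halves by LTP (`a` is continuous), glue at `t = 1/2`
(`H s t = H⁺ s (2t-1)` for `t ≥ 1/2`, `H⁻ s (1-2t)` for `t ≤ 1/2`).  `zero`: at `s = 0` the curve
`t ↦ ((t-1/2)L) v₀`, `v₀ = Tf ex p u (L/2)`, is a lift of the same curve by XSH (norm `|t-1/2| L`), LUN.
`base`: `s ↦ H s 0` is a lift of the constant curve `p`, and so is the constant `H 0 0`; LUN. -/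
def Ch2Statement : Prop :=
  ∀ (G : E5 → Bil E5) (ex : E5 × E5 → E5) (p q u n : E5) (L w : ℝ), Core G ex p q u n L w →
    ∃ H : ℝ → ℝ → E5, IsFam G ex p u n L w H

/-- CH3.  The short loop at `q`: `c(s) = exp_p(r(s) U(φ(s)))`, `c(0) = c(1) = q` (`start`, `stop`).
`c'(s) = dE p (r U) (r' U + r φ' U^⊥)`, `U^⊥ = -sin φ u + cos φ n`, so speed `≤ l` by XPO.  Lift it through
`exp_q` from `0` (LEX, `l < L < π`): `exp_q(z(1)) = q` and `nm z(1) ≤ l < L`, so `z(1) = 0` by `min`.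
Norm `≤ l/2` by LNB from both ends. -/
def Ch3Statement : Prop :=
  ∀ (G : E5 → Bil E5) (ex : E5 × E5 → E5) (p q u n : E5) (L w : ℝ), Core G ex p q u n L w →
    ∀ (l : ℝ) (r r' φ φ' : ℝ → ℝ), 0 < l → l < L → (∀ s, HasDerivAt r (r' s) s) →
      (∀ s, HasDerivAt φ (φ' s) s) → r 0 = L → r 1 = L → φ 0 = 0 → φ 1 = w →
      (∀ s ∈ Icc (0 : ℝ) 1, 0 < r s ∧ r s ≤ L ∧ 0 ≤ φ s ∧ φ s ≤ w ∧
        r' s ^ 2 + Real.sinh (r s) ^ 2 * φ' s ^ 2 ≤ l ^ 2) →
      ∃ z : ℝ → E5, IsLift G ex q (fun s => ex (p, r s • Un u n (φ s))) z ∧ z 0 = 0 ∧ z 1 = 0 ∧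
        ∀ s ∈ Icc (0 : ℝ) 1, nm G q (z s) ≤ l / 2

/-- CH4.  `H(1,1) = (L/2) v₀`.  For every `s` lift `τ ↦ exp_q(τ z(s))` (a geodesic of speed `nm z(s) ≤ l/2`)
through `exp_m` from `(L/2) v₀` (which lies over `exp_p(L u) = q`, XSH), LEX (`L/2 + l/2 < π`); joint
continuity by LTP.  So `s ↦ K(s,1)` is a lift of `c(s) = exp_p(r(s) U(φ(s)))`, and so is
`s ↦ H(φ(s)/w, r(s)/L)`; at `s = 0` both are `(L/2) v₀` (`z(0) = 0`: the curve is constant, LUN; `H.zero` at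
`t = 1`).  By LUN they agree at `s = 1`: `H(1,1) = K(1,1) = (L/2) v₀` (`z(1) = 0`, LUN). -/
def Ch4Statement : Prop :=
  ∀ (G : E5 → Bil E5) (ex : E5 × E5 → E5) (p q u n : E5) (L w : ℝ), Core G ex p q u n L w →
    ∀ (l : ℝ) (r φ : ℝ → ℝ), 0 < l → l < L → Continuous r → Continuous φ →
      r 0 = L → r 1 = L → φ 0 = 0 → φ 1 = w →
      (∀ s ∈ Icc (0 : ℝ) 1, 0 < r s ∧ r s ≤ L ∧ 0 ≤ φ s ∧ φ s ≤ w) →
      ∀ z : ℝ → E5, IsLift G ex q (fun s => ex (p, r s • Un u n (φ s))) z → z 0 = 0 → z 1 = 0 →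
        (∀ s ∈ Icc (0 : ℝ) 1, nm G q (z s) ≤ l / 2) →
        ∀ H : ℝ → ℝ → E5, IsFam G ex p u n L w H → H 1 1 = (L / 2) • Tf ex p u (L / 2)

/-- CH5.  A geodesic of length `L < π` between `∓(L/2) v₀` in the ball passes through `0`.  `η` is a lift of
the geodesic `c(t) = exp_p(t v)`, `|v| = L`, of `|c'| = L`; it is smooth on `(0,1)` (LSM).  Suppose
`η(1/2) ≠ 0`.  Let `(a,b) ∋ 1/2` be the largest interval in `[0,1]` on which `η ≠ 0`.  On `(a,b)` `f = cos|η|`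
satisfies `f'' ≤ -L² f` (XHC).  At `a`: either `a = 0` and `f(0) = cos(L/2)`, or `η(a) = 0` and `f(a) = 1`; the
same at `b`.  STU: `f(1/2) ≥ cos 0 = 1`, so `|η(1/2)| = 0`. -/
def Ch5Statement : Prop :=
  ∀ (G : E5 → Bil E5) (ex : E5 × E5 → E5), IsCyl G → SecLe G → IsExp G ex → ∀ m ∈ Om (Fin 5),
    ∀ p ∈ Om (Fin 5), ∀ (v : E5) (L : ℝ) (η : ℝ → E5), 0 < L → L < Real.pi → nm G p v = L →
      IsLift G ex m (fun t => ex (p, t • v)) η → nm G m (η 0) = L / 2 → nm G m (η 1) = L / 2 →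
      η (1 / 2) = 0

/-- CH6.  Conclusion.  Let `m = exp_p((L/2) u)`, `v₀ = Tf ex p u (L/2)`, `v₁ = Tf ex p (U w) (L/2)`.  Since
`H(1,1/2) = 0`: `exp_p((L/2) U w) = m`, and `τ ↦ H(1,(1-τ)/2)` is a lift of
`τ ↦ exp_p(((1-τ)L/2) U w) = exp_m(-τ(L/2) v₁)` (XSH), starting at `0`; so is `τ ↦ -τ(L/2) v₁`.  LUN:
`-(L/2) v₁ = H(1,0) = -(L/2) v₀`, `v₁ = v₀`.  By XSH (second part, `s = -L/2`)
`u = Tf ex p u 0 = Tf ex m v₀ (-L/2) = Tf ex m v₁ (-L/2) = U w`.  So `1 = G p u u = G p u (U w) = cos w < 1`. -/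
def Ch6Statement : Prop :=
  ∀ (G : E5 → Bil E5) (ex : E5 × E5 → E5) (p q u n : E5) (L w : ℝ), Core G ex p q u n L w →
    ∀ H : ℝ → ℝ → E5, IsFam G ex p u n L w H → H 1 (1 / 2) ≠ 0

/-- COR.  The core is contradictory: HYP, CH2, CH3, CH4, CH5 (`η = H 1`, `v = L U(w)`, `m = exp_p((L/2)u)`;
`|v₀| = 1` by XB1), CH6. -/
def CorStatement : Prop :=
  ∀ (G : E5 → Bil E5) (ex : E5 × E5 → E5) (p q u n : E5) (L w : ℝ), ¬ Core G ex p q u n L w

/-! ## The shortest geodesic between the fixed points -/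

/-- MNZ.  No very short geodesics: `exp_a` is injective near `0` (XB1 (1),(2): `dE a 0 = id`, inverse
function theorem) and `exp_a v` is near `a ≠ b` for small `v`. -/
def MnzStatement : Prop :=
  ∀ (G : E5 → Bil E5) (ex : E5 × E5 → E5), IsCyl G → IsExp G ex → ∀ a ∈ Om (Fin 5), ∀ b : E5,
    a ≠ b → ∃ ε : ℝ, 0 < ε ∧ ∀ v, 0 < nm G a v → nm G a v < ε → ex (a, v) ≠ a ∧ ex (a, v) ≠ b

/-- MNA.  A shortest geodesic between the points `p, q` exists, if there is one of length `< π`: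
for `a ∈ {p,q}` the set `{v : ε ≤ nm G a v ≤ R, exp_a v ∈ {p,q}}` is compact (MNZ, `R` the length of the
given one; `nm G a` is continuous and `G a` is positive definite, so `{nm ≤ R}` is bounded). -/
def MnaStatement : Prop :=
  ∀ (G : E5 → Bil E5) (ex : E5 × E5 → E5), IsCyl G → IsExp G ex → ∀ p ∈ Om (Fin 5),
    ∀ q ∈ Om (Fin 5), p ≠ q → Short G ex p q →
      ∃ a v : E5, (a = p ∨ a = q) ∧ 0 < nm G a v ∧ nm G a v < Real.pi ∧
        (ex (a, v) = p ∨ ex (a, v) = q) ∧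
        ∀ b y : E5, (b = p ∨ b = q) → 0 < nm G b y → (ex (b, y) = p ∨ ex (b, y) = q) →
          nm G a v ≤ nm G b y

/-- MAI.  MAIN from COR, MNA, XIS, XB1.  Take the shortest `(a,v)`, `L = nm G a v`, `u = L⁻¹ v`,
`b = exp_a v`.  `⟪a,v⟫ = 0` since `|exp_a v| = |a|` (XB1 (6)).  Let `A = fderiv f a`: `exp_a(A v) = f(b) = b`
(XIS, `f a = a`, `f b = b`), `G a (Au)(Au) = 1` (`pres`), `A u ≠ u`, `cos(2/5) ≤ G a u (Au) =: cos w`,
`w = arccos`, `0 < w ≤ 2/5` (`G a u (Au) = 1` would give `Au = u` by Cauchy-Schwarz),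
`n = (sin w)⁻¹ (Au - cos w u)`: `G a n n = 1`, `G a u n = 0`, `Au = Un u n w`.  `min`: the shortest one. -/
def MaiStatement : Prop := MainStatement

end Pool.Agent.ZRT
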